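import Pool.Agent.Q157.SM.Glue

namespace Pool.Agent.Results.MP_908f5f_co.SparseModuli

/-- the infinite word `w` over `{0,1,2}` has no factor `uu` with `u` nonempty: for no
position `P` and no length `n ≥ 1` are the factors of length `n` at `P` and at `P + n` equal -/
def IsSquareFree (w : ℕ → Fin 3) : Prop :=
  ∀ P n : ℕ, 1 ≤ n → ¬ ∀ t < n, w (P + t) = w (P + n + t)

/-- the subsequence `w_0 w_m w_{2m} ...` of `w` modulo `m` -/
def subseqMod (w : ℕ → Fin 3) (m : ℕ) : ℕ → Fin 3 := fun j => w (m * j)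

/-- `(p, k)`-sparse sequences: positive terms, strictly increasing, pairwise relatively prime,
first term `p`, and `s (i+1) > k s i` for all `i` -/
def Sparse (p k : ℕ) (s : ℕ → ℕ) : Prop :=
  (∀ i, 1 ≤ s i) ∧ StrictMono s ∧ (∀ i j, i ≠ j → Nat.gcd (s i) (s j) = 1) ∧
    s 0 = p ∧ ∀ i, k * s i < s (i + 1)

/-- auxiliary recursion: term and product of the terms so far -/
def aux (p k : ℕ) : ℕ → ℕ × ℕ
  | 0 => (p, p)
  | (n + 1) => ((k + 1) * (aux p k n).2 + 1, (aux p k n).2 * ((k + 1) * (aux p k n).2 + 1))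

theorem aux_pos (p k : ℕ) (hp : 1 ≤ p) (n : ℕ) : 1 ≤ (aux p k n).2 := by
  induction n with
  | zero => exact hp
  | succ n ih => exact Nat.mul_pos ih (Nat.succ_pos _)

theorem aux_dvd (p k : ℕ) (n : ℕ) : (aux p k n).1 ∣ (aux p k n).2 := by
  cases n with
  | zero => exact dvd_rfl
  | succ n => exact Dvd.intro_left _ rfl

theorem aux_dvd' (p k : ℕ) (n m : ℕ) (h : n ≤ m) : (aux p k n).1 ∣ (aux p k m).2 := by
  induction m, h using Nat.le_induction with
  | base => exact aux_dvd p k n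
  | succ m _ ih => exact ih.mul_right _

theorem aux_cop (p k : ℕ) (n m : ℕ) (h : n < m) :
    Nat.gcd (aux p k n).1 (aux p k m).1 = 1 := by
  obtain ⟨m, rfl⟩ : ∃ m', m = m' + 1 := ⟨m - 1, by omega⟩
  have h1 := aux_dvd' p k n m (by omega)
  have h2 : Nat.Coprime (aux p k m).2 (aux p k (m + 1)).1 := by
    show Nat.Coprime (aux p k m).2 ((k + 1) * (aux p k m).2 + 1)
    simp
  exact Nat.Coprime.coprime_dvd_left h1 h2

theorem sparse_exists (p k : ℕ) (hp : 1 ≤ p) : ∃ s, Sparse p k s := by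
  have hlt : ∀ i, (k + 1) * (aux p k i).1 < (aux p k (i + 1)).1 := by
    intro i
    have h1 : (aux p k i).1 ≤ (aux p k i).2 :=
      Nat.le_of_dvd (aux_pos p k hp i) (aux_dvd p k i)
    have h2 := Nat.mul_le_mul_left (k + 1) h1
    show (k + 1) * (aux p k i).1 < (k + 1) * (aux p k i).2 + 1
    omega
  have hm : ∀ i, (k + 1) * (aux p k i).1 = k * (aux p k i).1 + (aux p k i).1 := fun i => by ring
  refine ⟨fun i => (aux p k i).1, ?_, ?_, ?_, rfl, ?_⟩
  · intro i
    cases i with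
    | zero => exact hp
    | succ i => exact Nat.succ_pos _
  · refine strictMono_nat_of_lt_succ fun i => ?_
    have := hlt i
    rw [hm] at this
    show (aux p k i).1 < (aux p k (i + 1)).1
    omega
  · intro i j hij
    rcases Nat.lt_or_gt_of_ne hij with h | h
    · exact aux_cop p k i j h
    · rw [Nat.gcd_comm]
      exact aux_cop p k j i h
  · intro i
    have := hlt i
    rw [hm] at this
    show k * (aux p k i).1 < (aux p k (i + 1)).1
    omega

theorem general (s : ℕ → ℕ) (h0 : 113 ≤ s 0) (hs : ∀ i, 118 * s i < s (i + 1)) :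
    ∃ w : ℕ → Fin 3, IsSquareFree w ∧ ∀ i, IsSquareFree (subseqMod w (s i)) := by
  obtain ⟨w, h1, h2⟩ := Pool.Agent.Q157.SM.exists_word s h0 hs
  exact ⟨w, fun P n hn h => h1 ⟨P, n, hn, h⟩, fun i P n hn h => h2 i ⟨P, n, hn, h⟩⟩

theorem result :
    (∃ p k : ℕ, 1 ≤ p ∧ 1 ≤ k ∧ (∃ s, Sparse p k s) ∧
      ∀ s : ℕ → ℕ, Sparse p k s →
        ∃ w : ℕ → Fin 3, IsSquareFree w ∧ ∀ i, IsSquareFree (subseqMod w (s i))) ∧
    (∀ s : ℕ → ℕ, 113 ≤ s 0 → (∀ i, 118 * s i < s (i + 1)) →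
      ∃ w : ℕ → Fin 3, IsSquareFree w ∧ ∀ i, IsSquareFree (subseqMod w (s i))) := by
  refine ⟨⟨113, 118, by norm_num, by norm_num, sparse_exists _ _ (by norm_num), ?_⟩, general⟩
  intro s hs
  exact general s hs.2.2.2.1.ge hs.2.2.2.2

end Pool.Agent.Results.MP_908f5f_co.SparseModuli
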